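import Pool.Agent.K7.H50.RJ.Defs

set_option autoImplicit false

namespace Pool.Agent.K7.H50.RJ
open Finset

/-- The state: the loads and the total penalty of the rejected jobs. -/
structure St : Type where
  L : Fin 3 → ℝ
  P : ℝ

/-- A least loaded machine. -/
noncomputable def least (L : Fin 3 → ℝ) : Fin 3 :=
  if L 0 ≤ L 1 ∧ L 0 ≤ L 2 then 0 else if L 1 ≤ L 2 then 1 else 2

theorem least_le (L : Fin 3 → ℝ) (i : Fin 3) : L (least L) ≤ L i := by
  unfold least
  split_ifs with h1 h2
  · fin_cases i <;> simp [h1.1, h1.2]
  · have h3 : L 1 ≤ L 0 := by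
      by_contra h
      exact h1 ⟨(not_le.1 h).le, (not_le.1 h).le.trans h2⟩
    fin_cases i <;> simp [h3, h2]
  · have h3 : L 2 ≤ L 1 := (not_le.1 h2).le
    have h4 : L 2 ≤ L 0 := by
      by_contra h
      exact h1 ⟨(not_le.1 h).le.trans h3, (not_le.1 h).le⟩
    fin_cases i <;> simp [h3, h4]

/-- The acceptance rule. -/
def acc (s : St) (j : Job) : Prop :=
  j.t ≤ (199 / 100) * j.p ∨ (j.t ≤ (211 / 100) * j.p ∧ (1 / 5) * j.t ≤ s.P)

open Classical in
/-- The decision. -/
noncomputable def dec (s : St) (j : Job) : Option (Fin 3) :=
  if acc s j then some (least s.L) else none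

open Classical in
/-- The new state. -/
noncomputable def upd (s : St) (j : Job) : St :=
  if acc s j then ⟨Function.update s.L (least s.L) (s.L (least s.L) + j.t), s.P⟩
  else ⟨s.L, s.P + j.p⟩

/-- The state after the jobs `l`. -/
noncomputable def run (l : List Job) : St := l.foldl upd ⟨fun _ => 0, 0⟩

/-- The algorithm. -/
noncomputable def alg (l : List Job) : Option (Fin 3) :=
  match l.getLast? with
  | none => none
  | some j => dec (run l.dropLast) j

variable (J : ℕ → Job)

/-- The state before job `k`. -/
noncomputable def S (k : ℕ) : St := run ((List.range k).map J)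

theorem S_zero : S J 0 = ⟨fun _ => 0, 0⟩ := rfl

theorem S_succ (k : ℕ) : S J (k + 1) = upd (S J k) (J k) := by
  unfold S run
  rw [List.range_succ, List.map_append, List.foldl_append]
  rfl

theorem alg_dec (k : ℕ) : decisions alg J k = dec (S J k) (J k) := by
  unfold decisions alg S
  rw [List.range_succ, List.map_append]
  simp

theorem dec_some (k : ℕ) (i : Fin 3) (h : decisions alg J k = some i) :
    acc (S J k) (J k) ∧ i = least (S J k).L := by
  rw [alg_dec] at h
  unfold dec at h
  split_ifs at h with h1
  exact ⟨h1, (Option.some.inj h).symm⟩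

theorem dec_none (k : ℕ) (h : decisions alg J k = none) : ¬ acc (S J k) (J k) := by
  rw [alg_dec] at h
  unfold dec at h
  split_ifs at h with h1
  exact h1

theorem S_P (n : ℕ) : (S J n).P = penalty J n (decisions alg J) := by
  induction n with
  | zero => simp [S_zero, penalty]
  | succ n ih =>
    rw [S_succ, penalty, Finset.sum_range_succ, ← penalty, ← ih]
    unfold upd
    split_ifs with h1 h2 h2
    · rw [alg_dec, dec, if_pos h1] at h2; simp at h2
    · simp
    · rfl
    · rw [alg_dec, dec, if_neg h1] at h2; simp at h2

theorem S_L (n : ℕ) (i : Fin 3) : (S J n).L i = load J n (decisions alg J) i := by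
  induction n with
  | zero => simp [S_zero, load]
  | succ n ih =>
    rw [S_succ, load, Finset.sum_range_succ, ← load, ← ih]
    unfold upd
    by_cases h1 : acc (S J n) (J n)
    · rw [if_pos h1, alg_dec, dec, if_pos h1]
      by_cases h2 : i = least (S J n).L
      · subst h2; simp
      · have : ¬ (some (least (S J n).L) = some i) := fun h => h2 (Option.some.inj h).symm
        simp [Function.update_of_ne h2, this]
    · rw [if_neg h1, alg_dec, dec, if_neg h1]
      simp

/-- The total running time of the accepted jobs. -/
noncomputable def W (n : ℕ) : ℝ :=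
  ∑ k ∈ range n, if (decisions alg J k).isNone then 0 else (J k).t

theorem W_eq (n : ℕ) : W J n = (S J n).L 0 + (S J n).L 1 + (S J n).L 2 := by
  rw [S_L, S_L, S_L, load, load, load, ← sum_add_distrib, ← sum_add_distrib, W]
  refine sum_congr rfl fun k _ => ?_
  rcases h : decisions alg J k with _ | i
  · simp
  · fin_cases i <;> simp

theorem makespan_bound (n : ℕ) (i : Fin 3) : (S J n).L i ≤ 0 ∨
    ∃ l < n, (decisions alg J l).isNone = false ∧
      (S J n).L i ≤ (1 / 3) * W J n + (2 / 3) * (J l).t := by
  induction n with
  | zero => left; simp [S_zero]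
  | succ n ih =>
    have hW : W J n ≤ W J (n + 1) := by
      rw [W, W, Finset.sum_range_succ]
      have := (J n).t_pos
      split_ifs <;> linarith
    by_cases h1 : acc (S J n) (J n)
    · have hd : decisions alg J n = some (least (S J n).L) := by rw [alg_dec, dec, if_pos h1]
      have hL : S J (n + 1) = ⟨Function.update (S J n).L (least (S J n).L)
          ((S J n).L (least (S J n).L) + (J n).t), (S J n).P⟩ := by rw [S_succ, upd, if_pos h1]
      have hW' : W J (n + 1) = W J n + (J n).t := by
        rw [W, Finset.sum_range_succ, ← W, hd]; simp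
      by_cases h2 : i = least (S J n).L
      · right
        refine ⟨n, Nat.lt_succ_self n, by rw [hd]; rfl, ?_⟩
        rw [hL, hW']
        simp only [h2, Function.update_self]
        have a0 := least_le (S J n).L 0
        have a1 := least_le (S J n).L 1
        have a2 := least_le (S J n).L 2
        have := W_eq J n
        linarith
      · have hi : (S J (n + 1)).L i = (S J n).L i := by
          rw [hL]; simp [Function.update_of_ne h2]
        rcases ih with ih | ⟨l, hl, h3, h4⟩
        · left; rw [hi]; exact ih
        · right
          exact ⟨l, hl.trans (Nat.lt_succ_self n), h3, by rw [hi]; linarith⟩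
    · have hi : (S J (n + 1)).L i = (S J n).L i := by rw [S_succ, upd, if_neg h1]
      rcases ih with ih | ⟨l, hl, h3, h4⟩
      · left; rw [hi]; exact ih
      · right
        exact ⟨l, hl.trans (Nat.lt_succ_self n), h3, by rw [hi]; linarith⟩

end Pool.Agent.K7.H50.RJ
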