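import Mathlib

set_option autoImplicit false

/-!
# Online scheduling with rejection on three machines: definitions

An instance is given by a sequence `J` of jobs and a number `n`; its jobs are
`J 0, ..., J (n - 1)`, in this order.
-/

namespace Pool.Agent.K7.H50.RJ

/-- A job with running time `t` and penalty `p`. -/
structure Job : Type where
  t : ℝ
  p : ℝ
  t_pos : 0 < t
  p_pos : 0 < p

/-- The total penalty of the rejected jobs (`none` means that the job is rejected). -/
noncomputable def penalty {α : Type} (J : ℕ → Job) (n : ℕ) (d : ℕ → Option α) : ℝ :=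
  ∑ k ∈ Finset.range n, if (d k).isNone then (J k).p else 0

/-- The decisions of the online algorithm `A`: job `k` is handled knowing `J 0, ..., J k`. -/
def decisions {α : Type} (A : List Job → Option α) (J : ℕ → Job) (k : ℕ) : Option α :=
  A ((List.range (k + 1)).map J)

/-! ## The non-preemptive model -/

/-- The load (completion time) of machine `i`. -/
noncomputable def load (J : ℕ → Job) (n : ℕ) (d : ℕ → Option (Fin 3)) (i : Fin 3) : ℝ :=
  ∑ k ∈ Finset.range n, if d k = some i then (J k).t else 0

/-- The cost of a non-preemptive schedule: makespan plus penalties. -/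
noncomputable def cost (J : ℕ → Job) (n : ℕ) (d : ℕ → Option (Fin 3)) : ℝ :=
  Finset.univ.sup' Finset.univ_nonempty (load J n d) + penalty J n d

/-- The optimal offline cost in the non-preemptive model. -/
noncomputable def OPT (J : ℕ → Job) (n : ℕ) : ℝ := ⨅ d : ℕ → Option (Fin 3), cost J n d

/-- The online algorithm `A` is `c`-competitive in the non-preemptive model. -/
def Competitive (A : List Job → Option (Fin 3)) (c : ℝ) : Prop :=
  ∀ (J : ℕ → Job) (n : ℕ), cost J n (decisions A J) ≤ c * OPT J n

/-! ## The preemptive model -/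

/-- A time slot `(i, a, b)`: machine `i` from time `a` to time `b`. -/
abbrev Slot : Type := Fin 3 × ℝ × ℝ

/-- Two slots are disjoint in time. -/
def Apart (s s' : Slot) : Prop := s.2.2 ≤ s'.2.1 ∨ s'.2.2 ≤ s.2.1

/-- A feasible preemptive schedule: every accepted job `k` gets finitely many slots, pairwise
disjoint in time and of total length `t_k`; slots of different jobs on the same machine are
disjoint. -/
structure Feasible (J : ℕ → Job) (n : ℕ) (S : ℕ → Option (Finset Slot)) : Prop where
  slot : ∀ k < n, ∀ σ, S k = some σ → ∀ s ∈ σ, 0 ≤ s.2.1 ∧ s.2.1 < s.2.2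
  apart : ∀ k < n, ∀ σ, S k = some σ → ∀ s ∈ σ, ∀ s' ∈ σ, s ≠ s' → Apart s s'
  total : ∀ k < n, ∀ σ, S k = some σ → ∑ s ∈ σ, (s.2.2 - s.2.1) = (J k).t
  machine : ∀ k < n, ∀ k' < n, k ≠ k' → ∀ σ σ', S k = some σ → S k' = some σ' →
    ∀ s ∈ σ, ∀ s' ∈ σ', s.1 = s'.1 → Apart s s'

/-- The makespan: the least `T ≥ 0` such that all slots end at time `T` or earlier. -/
noncomputable def makespan (n : ℕ) (S : ℕ → Option (Finset Slot)) : ℝ :=
  sInf {T : ℝ | 0 ≤ T ∧ ∀ k < n, ∀ σ, S k = some σ → ∀ s ∈ σ, s.2.2 ≤ T}

/-- The cost of a preemptive schedule: makespan plus penalties. -/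
noncomputable def costP (J : ℕ → Job) (n : ℕ) (S : ℕ → Option (Finset Slot)) : ℝ :=
  makespan n S + penalty J n S

/-- The optimal offline cost in the preemptive model. -/
noncomputable def OPTP (J : ℕ → Job) (n : ℕ) : ℝ :=
  ⨅ S : {S : ℕ → Option (Finset Slot) // Feasible J n S}, costP J n S.1

/-- The online algorithm `A` always produces feasible preemptive schedules and is
`c`-competitive in the preemptive model. -/
def CompetitiveP (A : List Job → Option (Finset Slot)) (c : ℝ) : Prop :=
  ∀ (J : ℕ → Job) (n : ℕ), Feasible J n (decisions A J) ∧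
    costP J n (decisions A J) ≤ c * OPTP J n

end Pool.Agent.K7.H50.RJ
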