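import Pool.Agent.K7.H50.RJ.Core

set_option autoImplicit false

namespace Pool.Agent.K7.H50.RJ
open Finset

variable (J : ℕ → Job)

/-- Job `k` is accepted by the algorithm. -/
def ac (k : ℕ) : Prop := (decisions alg J k).isNone = false

theorem not_ac (k : ℕ) (h : ¬ ac J k) : decisions alg J k = none := by
  unfold ac at h
  rcases h1 : decisions alg J k with _ | i
  · rfl
  · rw [h1] at h; simp at h

theorem ac_acc (k : ℕ) (h : ac J k) : acc (S J k) (J k) := by
  unfold ac at h
  rcases h1 : decisions alg J k with _ | i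
  · rw [h1] at h; simp at h
  · exact (dec_some J k i h1).1

open Classical in
/-- Sums over the jobs with property `q`. -/
noncomputable def sm (n : ℕ) (q : ℕ → Prop) (f : ℕ → ℝ) : ℝ := ∑ k ∈ range n, if q k then f k else 0

theorem sm_succ (n : ℕ) (q : ℕ → Prop) (f : ℕ → ℝ) (h : q n) :
    sm (n + 1) q f = sm n q f + f n := by
  rw [sm, sum_range_succ, if_pos h, ← sm]

theorem sm_succ' (n : ℕ) (q : ℕ → Prop) (f : ℕ → ℝ) (h : ¬ q n) :
    sm (n + 1) q f = sm n q f := by
  rw [sm, sum_range_succ, if_neg h, ← sm, add_zero]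

theorem sm_nonneg (n : ℕ) (q : ℕ → Prop) (f : ℕ → ℝ) (h : ∀ k, 0 ≤ f k) : 0 ≤ sm n q f :=
  sum_nonneg fun k _ => by split_ifs <;> [exact h k; exact le_rfl]

theorem sm_le (n : ℕ) (q : ℕ → Prop) (f g : ℕ → ℝ) (h : ∀ k < n, q k → f k ≤ g k) :
    sm n q f ≤ sm n q g :=
  sum_le_sum fun k hk => by
    split_ifs with hq
    · exact h k (mem_range.1 hk) hq
    · exact le_rfl

theorem sm_mul (n : ℕ) (q : ℕ → Prop) (c : ℝ) (f : ℕ → ℝ) :
    sm n q (fun k => c * f k) = c * sm n q f := by
  rw [sm, sm, mul_sum]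
  refine sum_congr rfl fun k _ => ?_
  split_ifs <;> simp

theorem sm_split (n : ℕ) (q r : ℕ → Prop) (f : ℕ → ℝ) :
    sm n q f = sm n (fun k => q k ∧ r k) f + sm n (fun k => q k ∧ ¬ r k) f := by
  rw [sm, sm, sm, ← sum_add_distrib]
  refine sum_congr rfl fun k _ => ?_
  by_cases h1 : q k <;> by_cases h2 : r k <;> simp [h1, h2]

theorem sm_single (n : ℕ) (q : ℕ → Prop) (f : ℕ → ℝ) (h : ∀ k, 0 ≤ f k) (l : ℕ) (hl : l < n)
    (hq : q l) : f l ≤ sm n q f := by
  classical
  rw [sm]
  refine le_trans ?_ (single_le_sum (f := fun k => if q k then f k else 0) (fun k _ => ?_)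
    (mem_range.2 hl))
  · rw [if_pos hq]
  · split_ifs <;> [exact h k; exact le_rfl]

theorem sm_mono (n : ℕ) (q r : ℕ → Prop) (f : ℕ → ℝ) (h : ∀ k, 0 ≤ f k) (hqr : ∀ k, q k → r k) :
    sm n q f ≤ sm n r f :=
  sum_le_sum fun k _ => by
    by_cases h1 : q k
    · rw [if_pos h1, if_pos (hqr k h1)]
    · rw [if_neg h1]
      split_ifs <;> [exact h k; exact le_rfl]

theorem sm_le_succ (m n : ℕ) (hmn : m ≤ n) (q : ℕ → Prop) (f : ℕ → ℝ) (h : ∀ k, 0 ≤ f k) :
    sm m q f ≤ sm n q f := by
  rw [sm, sm]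
  refine sum_le_sum_of_subset_of_nonneg (range_mono hmn) fun k _ _ => ?_
  split_ifs <;> [exact h k; exact le_rfl]

theorem W_sm (n : ℕ) : W J n = sm n (ac J) fun k => (J k).t := by
  rw [W, sm]
  refine sum_congr rfl fun k _ => ?_
  by_cases h : ac J k
  · rw [if_pos h]; unfold ac at h; rw [h]; simp
  · rw [if_neg h, not_ac J k h]; simp

theorem P_sm (n : ℕ) : (S J n).P = sm n (fun k => ¬ ac J k) fun k => (J k).p := by
  rw [S_P, penalty, sm]
  refine sum_congr rfl fun k _ => ?_
  by_cases h : ac J k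
  · rw [if_neg (not_not.2 h)]; unfold ac at h; rw [h]; simp
  · rw [if_pos h, not_ac J k h]; simp

/-- Jobs rejected by the algorithm and accepted by the offline schedule, of moderate density. -/
def R1 (O : ℕ → Prop) (k : ℕ) : Prop :=
  (¬ ac J k ∧ O k) ∧ (J k).t ≤ (211 / 100) * (J k).p

theorem r1_bound (O : ℕ → Prop) (n : ℕ) (T : ℝ) (hT : 0 ≤ T) (ht : ∀ k < n, O k → (J k).t ≤ T) :
    ∀ m ≤ n, sm m (R1 J O) (fun k => (J k).p) ≤ (1 / 5 + 100 / 199) * T := by
  intro m
  induction m with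
  | zero =>
    intro _
    have : sm 0 (R1 J O) (fun k => (J k).p) = 0 := by simp [sm]
    rw [this]; positivity
  | succ m ih =>
    intro hm
    by_cases h : R1 J O m
    · rw [sm_succ m _ _ h]
      have h1 : sm m (R1 J O) (fun k => (J k).p) ≤ (S J m).P := by
        rw [P_sm]
        exact sm_mono m _ _ _ (fun k => (J k).p_pos.le) fun k hk => hk.1.1
      have h2 := dec_none J m (not_ac J m h.1.1)
      unfold acc at h2
      push Not at h2
      have h3 := h2.2 h.2
      have h4 := ht m (by omega) h.1.2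
      have h5 := h2.1
      linarith
    · rw [sm_succ' m _ _ h]
      exact ih (by omega)

theorem core (O : ℕ → Prop) (n : ℕ) (T : ℝ) (hT : 0 ≤ T) (ht : ∀ k < n, O k → (J k).t ≤ T)
    (hs : sm n O (fun k => (J k).t) ≤ 3 * T) (i : Fin 3) :
    (S J n).L i + (S J n).P ≤ (199 / 100) * (T + sm n (fun k => ¬ O k) fun k => (J k).p) := by
  have htp : ∀ k, 0 ≤ (J k).t := fun k => (J k).t_pos.le
  have hpp : ∀ k, 0 ≤ (J k).p := fun k => (J k).p_pos.le
  have hacc : ∀ k, ac J k → (J k).t ≤ (211 / 100) * (J k).p := by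
    intro k hk
    rcases ac_acc J k hk with h | h
    · have := (J k).p_pos; linarith
    · exact h.1
  have hrej : ∀ k, ¬ ac J k → (199 / 100) * (J k).p ≤ (J k).t := by
    intro k hk
    have := dec_none J k (not_ac J k hk)
    unfold acc at this
    push Not at this
    exact this.1.le
  -- the sums
  have e1 := sm_split n (ac J) O fun k => (J k).t
  have e2 := sm_split n (fun k => ¬ ac J k) O fun k => (J k).p
  have e3 := sm_split n O (fun k => ac J k) fun k => (J k).t
  have e4 := sm_split n (fun k => ¬ O k) (fun k => ac J k) fun k => (J k).p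
  have e5 := sm_split n (fun k => ¬ ac J k ∧ O k) (fun k => (J k).t ≤ (211 / 100) * (J k).p)
    fun k => (J k).p
  have e6 := sm_split n (fun k => ¬ ac J k ∧ O k) (fun k => (J k).t ≤ (211 / 100) * (J k).p)
    fun k => (J k).t
  have c1 : sm n (fun k => O k ∧ ac J k) (fun k => (J k).t) =
      sm n (fun k => ac J k ∧ O k) fun k => (J k).t := by
    congr 1; funext k; exact propext and_comm
  have c2 : sm n (fun k => O k ∧ ¬ ac J k) (fun k => (J k).t) =
      sm n (fun k => ¬ ac J k ∧ O k) fun k => (J k).t := by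
    congr 1; funext k; exact propext and_comm
  have c3 : sm n (fun k => ¬ O k ∧ ac J k) (fun k => (J k).p) =
      sm n (fun k => ac J k ∧ ¬ O k) fun k => (J k).p := by
    congr 1; funext k; exact propext and_comm
  have c4 : sm n (fun k => ¬ O k ∧ ¬ ac J k) (fun k => (J k).p) =
      sm n (fun k => ¬ ac J k ∧ ¬ O k) fun k => (J k).p := by
    congr 1; funext k; exact propext and_comm
  rw [c1, c2] at e3
  rw [c3, c4] at e4
  -- bounds
  have b1 : sm n (R1 J O) (fun k => (J k).p) ≤ (1 / 5 + 100 / 199) * T :=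
    r1_bound J O n T hT ht n le_rfl
  have b2 : (199 / 100) * sm n (R1 J O) (fun k => (J k).p) ≤ sm n (R1 J O) fun k => (J k).t := by
    rw [← sm_mul]
    exact sm_le n _ _ _ fun k _ hk => hrej k hk.1.1
  have b3 : (211 / 100) * sm n (fun k => (¬ ac J k ∧ O k) ∧ ¬ (J k).t ≤ (211 / 100) * (J k).p)
      (fun k => (J k).p) ≤ sm n (fun k => (¬ ac J k ∧ O k) ∧ ¬ (J k).t ≤ (211 / 100) * (J k).p)
      fun k => (J k).t := by
    rw [← sm_mul]
    exact sm_le n _ _ _ fun k _ hk => (not_le.1 hk.2).le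
  have e5' : sm n (fun k => ¬ ac J k ∧ O k) (fun k => (J k).p) = sm n (R1 J O) (fun k => (J k).p) +
      sm n (fun k => (¬ ac J k ∧ O k) ∧ ¬ (J k).t ≤ (211 / 100) * (J k).p)
      (fun k => (J k).p) := e5
  have e6' : sm n (fun k => ¬ ac J k ∧ O k) (fun k => (J k).t) = sm n (R1 J O) (fun k => (J k).t) +
      sm n (fun k => (¬ ac J k ∧ O k) ∧ ¬ (J k).t ≤ (211 / 100) * (J k).p)
      (fun k => (J k).t) := e6
  have n1 : 0 ≤ sm n (fun k => ac J k ∧ O k) fun k => (J k).t := sm_nonneg _ _ _ htp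
  have n2 : 0 ≤ sm n (fun k => ac J k ∧ ¬ O k) fun k => (J k).t := sm_nonneg _ _ _ htp
  have n3 : 0 ≤ sm n (fun k => ac J k ∧ ¬ O k) fun k => (J k).p := sm_nonneg _ _ _ hpp
  have n4 : 0 ≤ sm n (fun k => ¬ ac J k ∧ ¬ O k) fun k => (J k).p := sm_nonneg _ _ _ hpp
  have n5 : 0 ≤ sm n (R1 J O) fun k => (J k).p := sm_nonneg _ _ _ hpp
  have n6 : 0 ≤ sm n (fun k => (¬ ac J k ∧ O k) ∧ ¬ (J k).t ≤ (211 / 100) * (J k).p)
      (fun k => (J k).p) := sm_nonneg _ _ _ hpp
  have hW := W_sm J n
  have hP := P_sm J n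
  have a1 : sm n (fun k => ac J k ∧ ¬ O k) (fun k => (J k).t) ≤
      (211 / 100) * sm n (fun k => ac J k ∧ ¬ O k) fun k => (J k).p := by
    rw [← sm_mul]
    exact sm_le n _ _ _ fun k _ hk => hacc k hk.1
  rcases makespan_bound J n i with h | ⟨l, hl, hal, h⟩
  · linarith
  · by_cases hO : O l
    · have g1 := ht l hl hO
      have g2 : (J l).t ≤ sm n (fun k => ac J k ∧ O k) fun k => (J k).t :=
        sm_single n (fun k => ac J k ∧ O k) (fun k => (J k).t) htp l hl ⟨hal, hO⟩
      linarith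
    · have g1 : (J l).p ≤ sm n (fun k => ac J k ∧ ¬ O k) fun k => (J k).p :=
        sm_single n (fun k => ac J k ∧ ¬ O k) (fun k => (J k).p) hpp l hl ⟨hal, hO⟩
      have g2 : (211 / 100) * (J l).p - (J l).t ≤
          (211 / 100) * sm n (fun k => ac J k ∧ ¬ O k) (fun k => (J k).p) -
            sm n (fun k => ac J k ∧ ¬ O k) (fun k => (J k).t) := by
        classical
        have g3 : (211 / 100) * sm n (fun k => ac J k ∧ ¬ O k) (fun k => (J k).p) -
            sm n (fun k => ac J k ∧ ¬ O k) (fun k => (J k).t) =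
            ∑ k ∈ range n, if ac J k ∧ ¬ O k then (211 / 100) * (J k).p - (J k).t else 0 := by
          rw [← sm_mul, sm, sm, ← sum_sub_distrib]
          refine sum_congr rfl fun k _ => ?_
          split_ifs <;> simp
        rw [g3]
        refine le_trans ?_ (single_le_sum (f := fun k => if ac J k ∧ ¬ O k then
          (211 / 100) * (J k).p - (J k).t else 0) (fun k _ => ?_) (mem_range.2 hl))
        · rw [if_pos ⟨hal, hO⟩]
        · show (0 : ℝ) ≤ if ac J k ∧ ¬ O k then (211 / 100) * (J k).p - (J k).t else 0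
          split_ifs with hk
          · have := hacc k hk.1; linarith
          · exact le_rfl
      have g4 : (S J l).P ≤ (S J n).P := by
        rw [P_sm, P_sm]
        exact sm_le_succ l n hl.le _ _ hpp
      have hlp := (J l).p_pos
      rcases ac_acc J l hal with h5 | ⟨h5, h6⟩
      · linarith
      · by_cases h7 : (J l).t ≤ (199 / 100) * (J l).p
        · linarith
        · have h8 := (not_le.1 h7).le
          linarith

end Pool.Agent.K7.H50.RJ
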