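import Pool.Agent.K7.H50.RJ.Main

set_option autoImplicit false

namespace Pool.Agent.K7.H50.RJ
open Finset

variable (J : ℕ → Job)

theorem penalty_sm {α : Type} (n : ℕ) (d : ℕ → Option α) :
    penalty J n d = sm n (fun k => ¬ (d k).isNone = false) fun k => (J k).p := by
  rw [penalty, sm]
  refine sum_congr rfl fun k _ => ?_
  cases h : (d k).isNone <;> simp

theorem load_sum (n : ℕ) (d : ℕ → Option (Fin 3)) :
    sm n (fun k => (d k).isNone = false) (fun k => (J k).t) =
      load J n d 0 + load J n d 1 + load J n d 2 := by
  rw [load, load, load, ← sum_add_distrib, ← sum_add_distrib, sm]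
  refine sum_congr rfl fun k _ => ?_
  rcases h : d k with _ | i
  · simp
  · fin_cases i <;> simp

theorem le_load (n : ℕ) (d : ℕ → Option (Fin 3)) (k : ℕ) (hk : k < n) (i : Fin 3)
    (h : d k = some i) : (J k).t ≤ load J n d i := by
  rw [load]
  refine le_trans ?_ (single_le_sum (f := fun k => if d k = some i then (J k).t else 0)
    (fun k _ => ?_) (mem_range.2 hk))
  · simp [h]
  · show (0 : ℝ) ≤ if d k = some i then (J k).t else 0
    have := (J k).t_pos
    split_ifs <;> linarith

theorem load_nonneg (n : ℕ) (d : ℕ → Option (Fin 3)) (i : Fin 3) : 0 ≤ load J n d i :=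
  sum_nonneg fun k _ => by
    have := (J k).t_pos
    split_ifs <;> linarith

/-- The algorithm is `1.99`-competitive against non-preemptive schedules. -/
theorem competitive_alg : Competitive alg (199 / 100) := by
  intro J n
  have key : ∀ d : ℕ → Option (Fin 3),
      cost J n (decisions alg J) ≤ (199 / 100) * cost J n d := by
    intro d
    set T := Finset.univ.sup' Finset.univ_nonempty (load J n d) with hT
    have hl : ∀ i, load J n d i ≤ T := fun i => Finset.le_sup' (load J n d) (Finset.mem_univ i)
    have hT0 : 0 ≤ T := (load_nonneg J n d 0).trans (hl 0)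
    have hc : ∀ i, (S J n).L i + (S J n).P ≤ (199 / 100) * (T + penalty J n d) := by
      intro i
      rw [penalty_sm]
      refine core J (fun k => (d k).isNone = false) n T hT0 ?_ ?_ i
      · intro k hk hO
        rcases h : d k with _ | i
        · rw [h] at hO; simp at hO
        · exact (le_load J n d k hk i h).trans (hl i)
      · rw [load_sum]
        linarith [hl 0, hl 1, hl 2]
    show Finset.univ.sup' Finset.univ_nonempty (load J n (decisions alg J)) +
      penalty J n (decisions alg J) ≤ (199 / 100) * (T + penalty J n d)
    rw [← S_P, ← le_sub_iff_add_le]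
    refine Finset.sup'_le _ _ fun i _ => ?_
    rw [← S_L]
    linarith [hc i]
  unfold OPT
  have h1 : (100 / 199) * cost J n (decisions alg J) ≤ ⨅ d : ℕ → Option (Fin 3), cost J n d := by
    refine le_ciInf fun d => ?_
    linarith [key d]
  linarith

end Pool.Agent.K7.H50.RJ
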