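import Pool.Agent.K7.H50.RJ.Non

set_option autoImplicit false

namespace Pool.Agent.K7.H50.RJ
open Finset

/-- Pairwise disjoint slots in `[0, T]` have total length at most `T`. -/
theorem sum_slots {ι : Type} (σ : Finset ι) (f : ι → Slot) (T : ℝ) (hT : 0 ≤ T)
    (h1 : ∀ s ∈ σ, 0 ≤ (f s).2.1 ∧ (f s).2.1 < (f s).2.2 ∧ (f s).2.2 ≤ T)
    (h2 : ∀ s ∈ σ, ∀ s' ∈ σ, s ≠ s' → Apart (f s) (f s')) :
    ∑ s ∈ σ, ((f s).2.2 - (f s).2.1) ≤ T := by
  have hd : (σ : Set ι).PairwiseDisjoint fun s => Set.Ico (f s).2.1 (f s).2.2 := by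
    intro s hs s' hs' hne
    rw [Function.onFun, Set.disjoint_left]
    intro x hx hx'
    rcases h2 s hs s' hs' hne with h | h
    · exact absurd (hx.2.trans_le h) (not_lt.2 hx'.1)
    · exact absurd (hx'.2.trans_le h) (not_lt.2 hx.1)
  have hm : MeasureTheory.volume (⋃ s ∈ σ, Set.Ico (f s).2.1 (f s).2.2) =
      ∑ s ∈ σ, MeasureTheory.volume (Set.Ico (f s).2.1 (f s).2.2) :=
    MeasureTheory.measure_biUnion_finset hd fun s _ => measurableSet_Ico
  have hle : MeasureTheory.volume (⋃ s ∈ σ, Set.Ico (f s).2.1 (f s).2.2) ≤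
      MeasureTheory.volume (Set.Icc (0 : ℝ) T) := by
    refine MeasureTheory.measure_mono ?_
    intro x hx
    simp only [Set.mem_iUnion] at hx
    obtain ⟨s, hs, hx⟩ := hx
    obtain ⟨a, _, c⟩ := h1 s hs
    exact ⟨a.trans hx.1, hx.2.le.trans c⟩
  rw [hm, Real.volume_Icc] at hle
  simp only [Real.volume_Ico, sub_zero] at hle
  rw [← ENNReal.ofReal_sum_of_nonneg fun s hs => by linarith [(h1 s hs).2.1]] at hle
  exact (ENNReal.ofReal_le_ofReal_iff hT).1 hle

variable (J : ℕ → Job)

/-- `T` bounds all completion times. -/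
def Bd (n : ℕ) (S : ℕ → Option (Finset Slot)) (T : ℝ) : Prop :=
  0 ≤ T ∧ ∀ k < n, ∀ σ, S k = some σ → ∀ s ∈ σ, s.2.2 ≤ T

theorem single_bound (n : ℕ) (S : ℕ → Option (Finset Slot)) (hS : Feasible J n S) (T : ℝ)
    (hT : Bd n S T) (k : ℕ) (hk : k < n) (σ : Finset Slot) (h : S k = some σ) :
    (J k).t ≤ T := by
  rw [← hS.total k hk σ h]
  refine sum_slots σ id T hT.1 (fun s hs => ?_) (fun s hs s' hs' hne => ?_)
  · exact ⟨(hS.slot k hk σ h s hs).1, (hS.slot k hk σ h s hs).2, hT.2 k hk σ h s hs⟩
  · exact hS.apart k hk σ h s hs s' hs' hne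

/-- The slots of job `k`. -/
def sl (S : ℕ → Option (Finset Slot)) (k : ℕ) : Finset Slot := (S k).getD ∅

theorem total_bound (n : ℕ) (S : ℕ → Option (Finset Slot)) (hS : Feasible J n S) (T : ℝ)
    (hT : Bd n S T) :
    sm n (fun k => (S k).isNone = false) (fun k => (J k).t) ≤ 3 * T := by
  classical
  -- all slots, indexed by job
  have hsl : ∀ k, ∀ s ∈ sl S k, S k = some (sl S k) := by
    intro k s hs
    unfold sl at hs ⊢
    rcases h : S k with _ | σ
    · rw [h] at hs; simp at hs
    · simp
  have hjob : ∀ k < n, (if (S k).isNone = false then (J k).t else 0) =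
      ∑ s ∈ sl S k, (s.2.2 - s.2.1) := by
    intro k hk
    unfold sl
    rcases h : S k with _ | σ
    · simp
    · simp only [Option.isNone_some, if_true, Option.getD_some]
      exact (hS.total k hk σ h).symm
  have hmach : ∀ i : Fin 3, ∑ q ∈ (range n).sigma fun k => (sl S k).filter fun s => s.1 = i,
      (q.2.2.2 - q.2.2.1) ≤ T := by
    intro i
    have g1 : ∀ q ∈ (range n).sigma fun k => (sl S k).filter fun s => s.1 = i,
        0 ≤ q.2.2.1 ∧ q.2.2.1 < q.2.2.2 ∧ q.2.2.2 ≤ T := by
      intro q hq
      rw [mem_sigma, mem_range, mem_filter] at hq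
      have h := hsl q.1 q.2 hq.2.1
      exact ⟨(hS.slot q.1 hq.1 _ h _ hq.2.1).1, (hS.slot q.1 hq.1 _ h _ hq.2.1).2,
        hT.2 q.1 hq.1 _ h _ hq.2.1⟩
    have g2 : ∀ q ∈ (range n).sigma fun k => (sl S k).filter fun s => s.1 = i,
        ∀ q' ∈ (range n).sigma fun k => (sl S k).filter fun s => s.1 = i,
        q ≠ q' → Apart q.2 q'.2 := by
      intro q hq q' hq' hne
      rw [mem_sigma, mem_range, mem_filter] at hq hq'
      have h := hsl q.1 q.2 hq.2.1
      have h' := hsl q'.1 q'.2 hq'.2.1
      by_cases hk : q.1 = q'.1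
      · obtain ⟨k, s⟩ := q
        obtain ⟨k', s'⟩ := q'
        simp only at hk
        subst hk
        refine hS.apart k hq.1 _ h s hq.2.1 s' hq'.2.1 ?_
        rintro rfl
        exact hne rfl
      · exact hS.machine q.1 hq.1 q'.1 hq'.1 hk _ _ h h' _ hq.2.1 _ hq'.2.1
          (hq.2.2.trans hq'.2.2.symm)
    generalize ((range n).sigma fun k => (sl S k).filter fun s => s.1 = i) = Q at g1 g2 ⊢
    exact sum_slots (ι := (_ : ℕ) × Slot) Q (fun q => q.2) T hT.1 g1 g2
  have hsum : sm n (fun k => (S k).isNone = false) (fun k => (J k).t) =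
      ∑ i : Fin 3, ∑ q ∈ (range n).sigma fun k => (sl S k).filter fun s => s.1 = i,
        (q.2.2.2 - q.2.2.1) := by
    have h1 : sm n (fun k => (S k).isNone = false) (fun k => (J k).t) =
        ∑ k ∈ range n, ∑ s ∈ sl S k, (s.2.2 - s.2.1) := by
      rw [sm]
      refine sum_congr rfl fun k hk => ?_
      rw [← hjob k (mem_range.1 hk)]
      split_ifs <;> rfl
    rw [h1]
    simp_rw [sum_sigma]
    rw [sum_comm]
    refine sum_congr rfl fun k _ => ?_
    rw [sum_fiberwise]
  rw [hsum, Fin.sum_univ_three]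
  linarith [hmach 0, hmach 1, hmach 2]

/-- The list schedule as a preemptive schedule. -/
noncomputable def algP (l : List Job) : Option (Finset Slot) :=
  match l.getLast? with
  | none => none
  | some j => (dec (run l.dropLast) j).map fun i =>
      {(i, (run l.dropLast).L i, (run l.dropLast).L i + j.t)}

theorem algP_dec (k : ℕ) : decisions algP J k = (decisions alg J k).map fun i =>
    {(i, (S J k).L i, (S J k).L i + (J k).t)} := by
  rw [alg_dec]
  unfold decisions algP S
  rw [List.range_succ, List.map_append]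
  simp

theorem algP_some (k : ℕ) (σ : Finset Slot) (h : decisions algP J k = some σ) :
    ∃ i, decisions alg J k = some i ∧ σ = {(i, (S J k).L i, (S J k).L i + (J k).t)} := by
  rw [algP_dec] at h
  rcases h1 : decisions alg J k with _ | i
  · rw [h1] at h; simp at h
  · rw [h1] at h
    exact ⟨i, rfl, (Option.some.inj h).symm⟩

theorem load_after (k : ℕ) (i : Fin 3) (h : decisions alg J k = some i) :
    (S J (k + 1)).L i = (S J k).L i + (J k).t := by
  rw [S_L, S_L, load, sum_range_succ, ← load, if_pos h]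

theorem load_mono (k m : ℕ) (hkm : k ≤ m) (i : Fin 3) : (S J k).L i ≤ (S J m).L i := by
  rw [S_L, S_L, load, load]
  refine sum_le_sum_of_subset_of_nonneg (range_mono hkm) fun k _ _ => ?_
  have := (J k).t_pos
  split_ifs <;> linarith

theorem feasible_algP (n : ℕ) : Feasible J n (decisions algP J) := by
  constructor
  · intro k _ σ h s hs
    obtain ⟨i, h1, rfl⟩ := algP_some J k σ h
    rw [mem_singleton] at hs
    subst hs
    refine ⟨?_, ?_⟩
    · show 0 ≤ (S J k).L i
      rw [S_L]; exact load_nonneg J k _ i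
    · show (S J k).L i < (S J k).L i + (J k).t
      linarith [(J k).t_pos]
  · intro k _ σ h s hs s' hs' hne
    obtain ⟨i, h1, rfl⟩ := algP_some J k σ h
    rw [mem_singleton] at hs hs'
    exact absurd (hs.trans hs'.symm) hne
  · intro k _ σ h
    obtain ⟨i, h1, rfl⟩ := algP_some J k σ h
    rw [sum_singleton]
    ring
  · intro k _ k' _ hne σ σ' h h' s hs s' hs' hm
    obtain ⟨i, h1, rfl⟩ := algP_some J k σ h
    obtain ⟨i', h1', rfl⟩ := algP_some J k' σ' h'
    rw [mem_singleton] at hs hs'
    subst hs hs'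
    simp only at hm
    subst hm
    unfold Apart
    simp only
    rcases lt_or_gt_of_ne hne with h2 | h2
    · left
      rw [← load_after J k i h1]
      exact load_mono J (k + 1) k' h2 i
    · right
      rw [← load_after J k' i h1']
      exact load_mono J (k' + 1) k h2 i

theorem penalty_algP (n : ℕ) : penalty J n (decisions algP J) = (S J n).P := by
  rw [S_P, penalty, penalty]
  refine sum_congr rfl fun k _ => ?_
  rw [algP_dec]
  cases decisions alg J k <;> rfl

/-- The algorithm is `1.99`-competitive against preemptive schedules. -/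
theorem competitiveP_alg : CompetitiveP algP (199 / 100) := by
  intro J n
  refine ⟨feasible_algP J n, ?_⟩
  have key : ∀ S' : ℕ → Option (Finset Slot), Feasible J n S' → ∀ T, Bd n S' T →
      costP J n (decisions algP J) ≤ (199 / 100) * (T + penalty J n S') := by
    intro S' hS' T hT
    have hc : ∀ i, (S J n).L i + (S J n).P ≤ (199 / 100) * (T + penalty J n S') := by
      intro i
      rw [penalty_sm]
      refine core J (fun k => (S' k).isNone = false) n T hT.1 ?_ ?_ i
      · intro k hk hO
        rcases h : S' k with _ | σ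
        · rw [h] at hO; simp at hO
        · exact single_bound J n S' hS' T hT k hk σ h
      · exact total_bound J n S' hS' T hT
    have hb : Bd n (decisions algP J) ((199 / 100) * (T + penalty J n S') - (S J n).P) := by
      refine ⟨?_, ?_⟩
      · have := hc 0
        have h0 : 0 ≤ (S J n).L 0 := by rw [S_L]; exact load_nonneg J n _ 0
        linarith
      · intro k hk σ h s hs
        obtain ⟨i, h1, rfl⟩ := algP_some J k σ h
        rw [mem_singleton] at hs
        subst hs
        show (S J k).L i + (J k).t ≤ _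
        rw [← load_after J k i h1]
        have := load_mono J (k + 1) n hk i
        linarith [hc i]
    have hms : makespan n (decisions algP J) ≤
        (199 / 100) * (T + penalty J n S') - (S J n).P := by
      refine csInf_le ⟨0, fun x hx => hx.1⟩ ?_
      exact hb
    unfold costP
    rw [penalty_algP]
    linarith
  unfold OPTP
  have hne : Nonempty {S : ℕ → Option (Finset Slot) // Feasible J n S} :=
    ⟨⟨decisions algP J, feasible_algP J n⟩⟩
  have h1 : (100 / 199) * costP J n (decisions algP J) ≤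
      ⨅ S : {S : ℕ → Option (Finset Slot) // Feasible J n S}, costP J n S.1 := by
    refine le_ciInf fun S' => ?_
    unfold costP
    rw [← sub_le_iff_le_add]
    refine le_csInf ?_ fun T hT => ?_
    · classical
      refine ⟨∑ k ∈ range n, ∑ s ∈ sl S'.1 k, |s.2.2|, ?_, ?_⟩
      · positivity
      · intro k hk σ h s hs
        have e : sl S'.1 k = σ := by unfold sl; rw [h]; rfl
        have h2 : |s.2.2| ≤ ∑ s ∈ sl S'.1 k, |s.2.2| := by
          rw [e]
          exact single_le_sum (f := fun s : Slot => |s.2.2|) (fun _ _ => abs_nonneg _) hs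
        have h3 : ∑ s ∈ sl S'.1 k, |s.2.2| ≤ ∑ k ∈ range n, ∑ s ∈ sl S'.1 k, |s.2.2| :=
          single_le_sum (f := fun k => ∑ s ∈ sl S'.1 k, |s.2.2|)
            (fun _ _ => sum_nonneg fun _ _ => abs_nonneg _) (mem_range.2 hk)
        exact (le_abs_self _).trans (h2.trans h3)
    · have := key S'.1 S'.2 T hT
      unfold costP at this
      linarith
  linarith

end Pool.Agent.K7.H50.RJ
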